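import Pool.Agent.TH894.NJ10

/-!
# Congruences over number fields do not lower the conductor by more than a bounded factor, for almost all elliptic curves

Order the elliptic curves `E : y² = x³ + Ax + B` over `ℚ` by the height `H(E) = max(4|A|³, 27B²)`.  For every `ε > 0` there is a
constant `C` such that all but a proportion `ε` of the curves have the following property: if `E'` is any elliptic curve over
`ℚ`, of whatever height, `L` any number field, `n` has a prime factor `l ≥ 3` with `l > [L : ℚ]`, and `E'[n]` is isomorphic to `E[n]`
as a module over the Galois group of `L`, then the product of the primes `q ≥ 5` of bad reduction of `E'` is at least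
`H(E) / C`, and at least `H(E) / (C l)` in the exceptional case that `l` divides `4A³ + 27B²`.

Proof.  Let `q ≥ 5`, `q ≠ l`, be a prime which divides `4A³ + 27B²` exactly once, and suppose that `E'` has good reduction at `q`
(for some integral model).  The inertia group at `q` acts trivially on `E'[l]`.  For every `τ` in the inertia group and every
`P ∈ E[l]` the point `τP - P` has nonsingular reduction and is fixed by the inertia group (local computations of the libraries
`W275/FM` and `W275/FML`); so the inertia group acts by unipotent automorphisms on `E[l]`, and not trivially, since otherwise all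
points of `E[l]` would have nonsingular reduction and their number would be at most `l`.  So some `σ` acts trivially on `E'[l]`
and has order `l` on `E[l]`; by the pigeonhole principle a power `σ ^ j`, `0 < j < l`, fixes `L`, and `E[n]`, `E'[n]` are not
isomorphic over `L`.  By the sieve for square divisors of `4A³ + 27B²` (same library) the product of these `q` is at least
`|4A³ + 27B²| / C'` for almost all curves, and discriminants which are small compared with the height are rare (`TH4/FZ`).
-/

set_option autoImplicit false

open Filter
open scoped Classical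

namespace Pool.Agent.Results.MP_4a0cc8_nt.AllFieldsOfSmallDegree

/-- The curve `y² = x³ + Ax + B` over `ℚ`. -/
def curve (A B : ℤ) : WeierstrassCurve ℚ := ⟨0, 0, 0, A, B⟩

/-- The group of its points over the algebraic closure of `ℚ`. -/
abbrev Points (A B : ℤ) : Type := ((curve A B).baseChange (AlgebraicClosure ℚ)).toAffine.Point

/-- The action of an automorphism `σ` of the algebraic closure on the points. -/
noncomputable def galois (A B : ℤ) (σ : AlgebraicClosure ℚ ≃ₐ[ℚ] AlgebraicClosure ℚ) :
    Points A B →+ Points A B :=
  WeierstrassCurve.Affine.Point.map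
    (σ : AlgebraicClosure ℚ →ₐ[ℚ] AlgebraicClosure ℚ)

/-- The `n`-torsion of `y² = x³ + Ax + B` and that of `y² = x³ + A'x + B'` are isomorphic as modules over the Galois group of the
field `L`: some map between the groups of points restricts to a bijective additive map of the `n`-torsion which commutes with all
automorphisms of the algebraic closure which fix `L`. -/
def CongruentOver (L : IntermediateField ℚ (AlgebraicClosure ℚ)) (n : ℕ) (A B A' B' : ℤ) : Prop :=
  ∃ f : Points A B → Points A' B', (∀ P Q, n • P = 0 → n • Q = 0 → f (P + Q) = f P + f Q) ∧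
    Set.BijOn f {P | n • P = 0} {Q | n • Q = 0} ∧
    ∀ σ ∈ L.fixingSubgroup, ∀ P : Points A B, n • P = 0 → f (galois A B σ P) = galois A' B' σ (f P)

/-- The equations with `|A| ≤ T²` and `|B| ≤ T³`. -/
def Box (T : ℕ) : Set (ℤ × ℤ) := {p | |p.1| ≤ (T : ℤ) ^ 2 ∧ |p.2| ≤ (T : ℤ) ^ 3}

/-- The discriminant, up to the factor `-16`. -/
def disc (A B : ℤ) : ℤ := 4 * A ^ 3 + 27 * B ^ 2

/-- The height of `y² = x³ + Ax + B`. -/
def height (A B : ℤ) : ℤ := max (4 * |A| ^ 3) (27 * B ^ 2)

/-- The curves `y² = x³ + Ax + B` and `y² = x³ + A'x + B'` are isomorphic over `ℚ`. -/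
def IsModel (A B A' B' : ℤ) : Prop :=
  ∃ u : ℚ, u ≠ 0 ∧ (A' : ℚ) = u ^ 4 * A ∧ (B' : ℚ) = u ^ 6 * B

/-- `q ≥ 5` is a prime of bad reduction of `y² = x³ + Ax + B`: it divides the discriminant of every
integral equation `y² = x³ + A'x + B'` of the curve. -/
def BadPrime (A B : ℤ) (q : ℕ) : Prop :=
  q.Prime ∧ 5 ≤ q ∧ ∀ A' B' : ℤ, IsModel A B A' B' → (q : ℤ) ∣ disc A' B'

/-- The product of the primes `q ≥ 5` of bad reduction (they divide `4A³ + 27B²`, and the product
divides the conductor). -/
noncomputable def badProduct (A B : ℤ) : ℕ :=
  ∏ q ∈ (disc A B).natAbs.primeFactors.filter (fun q => BadPrime A B q), q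

/-- Whenever `E'` is an elliptic curve over `ℚ` with `E'[n]` isomorphic to `E[n]` over some number field `L`, and `n` has a prime
factor `l ≥ 3`, `l > [L : ℚ]`, the product of the primes `q ≥ 5` of bad reduction of `E'` is at least `H(E) / (C g)`, where
`g` is the greatest common divisor of `l` and `4A³ + 27B²` (so `g = 1`, if `l` does not divide it, and `g = l` otherwise). -/
def KeepsConductor (C : ℕ) (A B : ℤ) : Prop :=
  ∀ A' B' : ℤ, disc A' B' ≠ 0 → ∀ L : IntermediateField ℚ (AlgebraicClosure ℚ), FiniteDimensional ℚ L →
    ∀ l : ℕ, l.Prime → 3 ≤ l → Module.finrank ℚ L < l → ∀ n : ℕ, l ∣ n → CongruentOver L n A B A' B' →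
      height A B ≤ C * (Nat.gcd l (disc A B).natAbs * badProduct A' B')

/-- **Congruences over number fields do not lower the conductor by more than a bounded factor, for almost all curves.**  For
every `ε > 0` there is a `C` such that for all large `T` the pairs `(A, B)` in the box `|A| ≤ T²`, `|B| ≤ T³` for which
`E : y² = x³ + Ax + B` is an elliptic curve with `KeepsConductor C A B` are a proportion at least `1 - ε` of the box. -/
theorem result (ε : ℝ) (hε : 0 < ε) : ∃ C : ℕ, ∀ᶠ T : ℕ in atTop,
    (1 - ε) * ((Box T).ncard : ℝ) ≤
      (({p | p ∈ Box T ∧ disc p.1 p.2 ≠ 0 ∧ KeepsConductor C p.1 p.2} : Set (ℤ × ℤ)).ncard : ℝ) := by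
  obtain ⟨C, T₀, h⟩ := Pool.Agent.TH894.NJ.two_paramHL ε hε
  exact ⟨C, eventually_atTop.2 ⟨T₀, h⟩⟩

end Pool.Agent.Results.MP_4a0cc8_nt.AllFieldsOfSmallDegree
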