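import Pool.Agent.TH894.NI3

/-!
# Almost all elliptic curves, whose coefficients arise from arbitrary integers by changing few digits, have no congruence
modulo any `n ≥ 2` with any curve of smaller height

Let `b ≥ 2` and `ε > 0`.  Take any two integers `N₁`, `N₂` with `K₁`, `K₂` digits in base `b`, prescribe for every position a
new digit, choose `r₁` (`r₂`) positions and put the new digits there.  Let `A`, `B` be the numbers obtained, or more generally the
images of these numbers under fixed nonconstant linear functions.  Then for all but a proportion `ε` of the choices of the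
positions `E : y² = x³ + Ax + B` is an elliptic curve and there is a prime number `q > exp (c min (r₁, r₂))` such that every
elliptic curve `E'` over `ℚ`, for which `E'[n]` is isomorphic to `E[n]` as Galois module for some `n ≥ 2`, has bad reduction at `q`.
In particular, `E'` has large conductor and height.

Proof.  By the two ramification theorems of the libraries `W275/FM` and `W275/FML` (in the form of `TH4/FZ/Lev`), every curve
congruent to `E` has bad reduction at the primes `q ≥ 5` which divide `4A³ + 27B²` exactly once.  To find such a prime between `y`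
and `y ^ m` for almost all choices, the second moment over the choices of the number of these primes is computed by Fourier
expansion modulo `∏ q²`: only the frequencies with denominators at most `y ^ (4 m)` contribute to the square.  All but
`y ^ (1 / 4)` of these frequencies are far from the integers after multiplication by a positive proportion of the powers
`b ^ (2 s i)`; the few primes in the denominators of the other ones are excluded.  The exponential sum over the choices of positions
(an elementary symmetric function of unimodular numbers) is then at most `exp (- c' r)` at every nonzero frequency.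
-/

set_option autoImplicit false

namespace Pool.Agent.Results.MP_4a0cc8_nt.FewDigitCurves

open Finset
open scoped Classical

/-- The curve `y² = x³ + Ax + B` over `ℚ`. -/
def curve (A B : ℤ) : WeierstrassCurve ℚ := ⟨0, 0, 0, A, B⟩

/-- The group of its points over the algebraic closure of `ℚ`. -/
abbrev Points (A B : ℤ) : Type := ((curve A B).baseChange (AlgebraicClosure ℚ)).toAffine.Point

/-- The action of an automorphism `σ` of the algebraic closure on the points. -/
noncomputable def galois (A B : ℤ) (σ : AlgebraicClosure ℚ ≃ₐ[ℚ] AlgebraicClosure ℚ) :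
    Points A B →+ Points A B :=
  WeierstrassCurve.Affine.Point.map
    (σ : AlgebraicClosure ℚ →ₐ[ℚ] AlgebraicClosure ℚ)

/-- The `n`-torsion of `y² = x³ + Ax + B` and that of `y² = x³ + A'x + B'` are isomorphic as Galois
modules: some map between the groups of points restricts to a bijective additive map of the
`n`-torsion which commutes with the Galois group. -/
def Congruent (n : ℕ) (A B A' B' : ℤ) : Prop :=
  ∃ f : Points A B → Points A' B', (∀ P Q, n • P = 0 → n • Q = 0 → f (P + Q) = f P + f Q) ∧
    Set.BijOn f {P | n • P = 0} {Q | n • Q = 0} ∧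
    ∀ (σ : AlgebraicClosure ℚ ≃ₐ[ℚ] AlgebraicClosure ℚ) (P : Points A B), n • P = 0 →
      f (galois A B σ P) = galois A' B' σ (f P)

/-- The discriminant, up to the factor `-16`. -/
def disc (A B : ℤ) : ℤ := 4 * A ^ 3 + 27 * B ^ 2

/-- `y² = x³ + A'x + B'` is isomorphic to `y² = x³ + Ax + B` over `ℚ`. -/
def SameCurve (A B A' B' : ℤ) : Prop := ∃ u : ℚ, u ≠ 0 ∧ (A' : ℚ) = u ^ 4 * A ∧ (B' : ℚ) = u ^ 6 * B

/-- The prime `q ≥ 5` divides the discriminants of all integral equations `y² = x³ + A'x + B'` of the curve
`y² = x³ + Ax + B`: the curve has bad reduction at `q`. -/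
def BadPrime (A B : ℤ) (q : ℕ) : Prop :=
  q.Prime ∧ 5 ≤ q ∧ ∀ A' B' : ℤ, SameCurve A B A' B' → (q : ℤ) ∣ disc A' B'

/-- `E : y² = x³ + Ax + B` is an elliptic curve and there is `q > y` such that every elliptic curve
`E' : y² = x³ + A'x + B'`, which is congruent to `E` modulo some `n ≥ 2`, has bad reduction at the prime `q`. -/
def Rigid (y : ℕ) (A B : ℤ) : Prop :=
  disc A B ≠ 0 ∧ ∃ q : ℕ, y < q ∧ ∀ A' B' : ℤ, disc A' B' ≠ 0 → ∀ n : ℕ, 2 ≤ n → Congruent n A B A' B' → BadPrime A' B' q

/-- The digit number `i` (counted from the right, beginning with `0`) of `n` in base `b`. -/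
def digit (b i n : ℕ) : ℕ := n / b ^ i % b

/-- The number which arises from the number `N` with at most `K` digits in base `b`, if for every `i ∈ S`
the digit number `i` is replaced by `f i`. -/
def change (b K N : ℕ) (f : ℕ → ℕ) (S : Finset ℕ) : ℕ :=
  ∑ i ∈ range K, (if i ∈ S then f i else digit b i N) * b ^ i

/-- The initial data: a number `N`, the number `K` of its digits, the new digits `f`, the number `r` of changes. -/
structure Data where
  K : ℕ
  r : ℕ
  N : ℕ
  f : ℕ → ℕ

/-- `N` has at most `K` digits, `2 r ≤ K`, the prescribed new digits are different from the old ones. -/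
def Data.Ok (b : ℕ) (D : Data) : Prop :=
  2 * D.r ≤ D.K ∧ D.N < b ^ D.K ∧ ∀ j, D.f j < b ∧ D.f j ≠ digit b j D.N

/-- The choices of `r` of the `K` positions. -/
def Data.choices (D : Data) : Finset (Finset ℕ) := powersetCard D.r (range D.K)

/-- The number after the changes at the positions in `S`. -/
def Data.value (b : ℕ) (D : Data) (S : Finset ℕ) : ℕ := change b D.K D.N D.f S

/-- The number of the pairs of choices for which the values do not have the property `E`. -/
noncomputable def exceptions (b : ℕ) (D₁ D₂ : Data) (E : ℕ → ℕ → Prop) : ℕ :=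
  ((D₁.choices ×ˢ D₂.choices).filter (fun S => ¬ E (D₁.value b S.1) (D₂.value b S.2))).card

lemma choices_card (D : Data) : (D.choices.card : ℝ) = ((D.K).choose D.r : ℝ) := by
  unfold Data.choices
  rw [card_powersetCard, card_range]

/-- **No congruence with small curves.**  For all bases `b ≥ 2` and all `ε > 0` there are `c > 0` and `y₀`
such that for all `y ≥ y₀`, all linear functions `un + u₀`, `vn + v₀` with `0 < |u|, |v| ≤ y` and all data
`D₁`, `D₂` with `r₁, r₂ ≥ (log y) / c`: for all but a proportion `ε` of the choices of the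
positions the curve `y² = x³ + Ax + B` with `A = u n₁ + u₀`, `B = v n₂ + v₀`, where `n₁`, `n₂` arise from `N₁`, `N₂` by the changes
at the chosen positions, is an elliptic curve, and all elliptic curves congruent to it modulo some `n ≥ 2` have bad
reduction at one and the same prime `q > y`. -/
theorem result (b : ℕ) (hb : 2 ≤ b) (ε : ℝ) (hε : 0 < ε) : ∃ c : ℝ, 0 < c ∧ ∃ y₀ : ℕ, ∀ y : ℕ, y₀ ≤ y →
    ∀ u v u₀ v₀ : ℤ, u ≠ 0 → v ≠ 0 → |u| ≤ y → |v| ≤ y →
    ∀ D₁ D₂ : Data, D₁.Ok b → D₂.Ok b → Real.log y ≤ c * D₁.r → Real.log y ≤ c * D₂.r →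
      (exceptions b D₁ D₂ (fun n₁ n₂ => Rigid y (u * n₁ + u₀) (v * n₂ + v₀)) : ℝ) ≤
        ε * ((D₁.choices.card : ℝ) * D₂.choices.card) := by
  obtain ⟨c, hc, y₀, h⟩ := Pool.Agent.TH894.NI.rigid_few4 b hb ε hε
  refine ⟨c, hc, y₀, fun y hy u v u₀ v₀ hu hv huy hvy D₁ D₂ h₁ h₂ hr₁ hr₂ => ?_⟩
  have h3 := h y hy u v u₀ v₀ hu hv huy hvy ![D₁.r, D₂.r] ![D₁.K, D₂.K]
    (by intro i; fin_cases i; exacts [h₁.1, h₂.1]) (by intro i; fin_cases i; exacts [hr₁, hr₂])
    ![D₁.N, D₂.N] (by intro i; fin_cases i; exacts [h₁.2.1, h₂.2.1]) ![D₁.f, D₂.f]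
    (by intro i j; fin_cases i; exacts [h₁.2.2 j, h₂.2.2 j])
  rw [Fin.prod_univ_two] at h3
  rw [choices_card, choices_card]
  refine le_trans ?_ h3
  unfold exceptions
  apply Nat.cast_le.2
  refine card_le_card_of_injOn (fun w => ![w.1, w.2]) ?_ ?_
  · rintro ⟨S₁, S₂⟩ hS
    rw [mem_coe, mem_filter, mem_product] at hS
    rw [mem_coe, mem_filter, Fintype.mem_piFinset]
    refine ⟨?_, ?_⟩
    · intro i
      fin_cases i
      exacts [hS.1.1, hS.1.2]
    · intro hR
      apply hS.2
      obtain ⟨h0, q, hq, hyq, hall⟩ := hR
      exact ⟨h0, q, hyq, fun A' B' h0' n hn hcong => hall A' B' h0' n hn hcong⟩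
  · rintro ⟨S₁, S₂⟩ _ ⟨S₁', S₂'⟩ _ hSS
    have e1 : S₁ = S₁' := congrFun hSS 0
    have e2 : S₂ = S₂' := congrFun hSS 1
    rw [e1, e2]

end Pool.Agent.Results.MP_4a0cc8_nt.FewDigitCurves
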