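import Pool.Agent.TH4.FZ.Fam

/-!
# MP_4a0cc8_nt: 100% of the members of a one-parameter family have no congruence with the curves of
good reduction outside a prescribed set of primes

Let `K` be a number field and `E_t : y² = x³ + A(t)x + B(t)` a one-parameter family of elliptic curves,
`A`, `B` polynomials over the integers of `K`, such that `D(t) = 4A(t)³ + 27B(t)²` has an irreducible
factor `P` over `K` of multiplicity one, that is, the elliptic surface has a fibre of type `I₁` at the
roots of `P`.  Let `M` be a polynomial which is not divisible by `P` (for example a constant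
`N ≠ 0`, or the discriminant of another family `F_t` with good reduction at the roots of `P`).  For
100% of the parameters `t`, the Galois modules `E_t[n]` and `E'[n]` are not isomorphic, for all `n ≥ 2`
and all elliptic curves `E'` with good reduction outside `M(t)` at the same time.  The parameter runs
through the rational integers, or the integers of `K`, or any other family
`c + x₁ω₁ + ... + x_dω_d`, where `x₁, ..., x_d` are integers in intervals of independent lengths.

Proof.  Let `L` be the field of a root of `P`.  For a rational prime `q` with a prime ideal of degree one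
in `L`, let `𝔮` be the prime ideal of `K` below; for at least `q - 1` classes of `t` modulo `q²` (in a
suitable direction) `𝔮` divides `D(t)` exactly once and does not divide `M(t)`.  The sum of the `1/q`
diverges, so the second moment method gives two such primes for 100% of the `t`.  If `q` does not divide
the smallest prime factor `l` of `n`, inertia at `𝔮` acts trivially on `E'[l]` but not on `E_t[l]` (the
ramification theorem of the library `W275/FMK`).
-/

set_option autoImplicit false

open Filter Topology NumberField Polynomial

namespace Pool.Agent.Results.MP_4a0cc8_nt.OneParameterFamilies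

section
variable {K : Type} [Field K] [NumberField K]

/-- The curve `y² = x³ + Ax + B` over `K`, `A`, `B` integers of `K`. -/
def curve (A B : 𝓞 K) : WeierstrassCurve K := ⟨0, 0, 0, (A : K), (B : K)⟩

/-- The group of its points over the algebraic closure of `K`. -/
abbrev Points (A B : 𝓞 K) : Type := ((curve A B).baseChange (AlgebraicClosure K)).toAffine.Point

open scoped Classical in
/-- The action of a `K`-automorphism `σ` of the algebraic closure on the points. -/
noncomputable def galois (A B : 𝓞 K) (σ : AlgebraicClosure K ≃ₐ[K] AlgebraicClosure K) :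
    Points A B →+ Points A B :=
  WeierstrassCurve.Affine.Point.map
    (σ : AlgebraicClosure K →ₐ[K] AlgebraicClosure K)

open scoped Classical in
/-- The `n`-torsion of `y² = x³ + Ax + B` and that of `y² = x³ + A'x + B'` are isomorphic as Galois
modules: some map between the groups of points restricts to a bijective additive map of the
`n`-torsion which commutes with the Galois group of `K`. -/
def Congruent (n : ℕ) (A B A' B' : 𝓞 K) : Prop :=
  ∃ f : Points A B → Points A' B', (∀ P Q, n • P = 0 → n • Q = 0 → f (P + Q) = f P + f Q) ∧
    Set.BijOn f {P | n • P = 0} {Q | n • Q = 0} ∧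
    ∀ (σ : AlgebraicClosure K ≃ₐ[K] AlgebraicClosure K) (P : Points A B), n • P = 0 →
      f (galois A B σ P) = galois A' B' σ (f P)

/-- The discriminant, up to the factor `-16`. -/
def disc (A B : 𝓞 K) : 𝓞 K := 4 * A ^ 3 + 27 * B ^ 2

/-- Every prime ideal which contains `4A³ + 27B²` contains `N`. -/
def GoodOutside (N A B : 𝓞 K) : Prop :=
  ∀ 𝔭 : Ideal (𝓞 K), 𝔭.IsPrime → disc A B ∈ 𝔭 → N ∈ 𝔭

/-- The discriminant of a family, a polynomial over `K` (up to the factor `-16`). -/
noncomputable def famDisc (A B : (𝓞 K)[X]) : K[X] :=
  (4 * A ^ 3 + 27 * B ^ 2).map (algebraMap (𝓞 K) K)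

/-- The parameter `t = c + x₁ω₁ + ... + x_dω_d`. -/
def param {d : ℕ} (c : 𝓞 K) (ω : Fin d → 𝓞 K) (x : Fin d → ℤ) : 𝓞 K :=
  c + ∑ i, (x i : 𝓞 K) * ω i

/-- `E_t : y² = x³ + A(t)x + B(t)` is an elliptic curve and has no congruence modulo any `n ≥ 2` with
any curve with good reduction outside `M(t)`. -/
def NoCongruence (A B M : (𝓞 K)[X]) (t : 𝓞 K) : Prop :=
  disc (A.eval t) (B.eval t) ≠ 0 ∧ ∀ A' B' : 𝓞 K, GoodOutside (M.eval t) A' B' →
    ∀ n : ℕ, 2 ≤ n → ¬ Congruent n (A.eval t) (B.eval t) A' B'

end

/-- The integer vectors `x` with `|xᵢ| ≤ Lᵢ`. -/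
def Box {d : ℕ} (L : Fin d → ℕ) : Set (Fin d → ℤ) := {x | ∀ i, |x i| ≤ (L i : ℤ)}

/-- **No congruences for 100% of the members of a one-parameter family over a number field.**  Let the
polynomial `4A³ + 27B²` over `K` be divisible exactly once by the irreducible polynomial `P`, and let
`P` not divide `M`.  The proportion of the `x` in the box of side lengths `L` such that
`t = c + ∑ xᵢωᵢ` satisfies `NoCongruence A B M t` tends to `1` as all the side lengths tend to
infinity. -/
theorem result (K : Type) [Field K] [NumberField K] (A B M : (𝓞 K)[X]) (P : K[X])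
    (hP : Irreducible P) (h₁ : P ∣ famDisc A B) (h₂ : ¬ P ^ 2 ∣ famDisc A B)
    (hM : ¬ P ∣ M.map (algebraMap (𝓞 K) K)) (d : ℕ) (c : 𝓞 K) (ω : Fin d → 𝓞 K) (hω : ω ≠ 0) :
    Tendsto (fun L : Fin d → ℕ =>
      (({x | x ∈ Box L ∧ NoCongruence A B M (param c ω x)} : Set (Fin d → ℤ)).ncard : ℝ) /
      ((Box L).ncard : ℝ)) atTop (𝓝 1) :=
  Pool.Agent.TH4.FZ.lim_one {x : Fin d → ℤ | NoCongruence A B M (param c ω x)}
    (fun ε hε => Pool.Agent.TH4.FZ.fam1 A B M P hP h₁ h₂ hM c ω hω ε hε)

end Pool.Agent.Results.MP_4a0cc8_nt.OneParameterFamilies
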