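import Pool.Agent.TH125.Tor.Congruence

/-!
# Curves congruent to a fixed elliptic curve: a sparse set of `j`-invariants

Let `E₀` be an elliptic curve over a number field `K`. For every `ε > 0`, for all but `O(T ^ ε)` of
the elements `j` of `K` of height at most `T` (there are about `T ^ 2` of them): every elliptic curve
`E` over `K` with `j`-invariant `j` such that `E[n]` and `E₀[n]` are isomorphic Galois modules for
some integer `n ≥ 7` is isogenous to `E₀`.

Inputs (theorems, used as hypotheses on `E₀`):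

* `LogarithmicBound` (Masser-Wüstholz, Refinements of the Tate conjecture for abelian varieties): for
  a prime `p > c (1 + log H(j(E))) ^ c` an isomorphism `E[p] ≅ E₀[p]` comes from a homomorphism;
* `UniformCount`: a congruence modulo `p` gives a `K`-point on one of the `p - 1` twists of `X(p)`
  attached to `E₀`, irreducible of degree `p (p ^ 2 - 1) / 2` over the `j`-line, and there are at most
  `c δ ^ c H ^ (2 / δ)` points of height at most `H` on an irreducible curve of degree `δ`
  (Bombieri-Pila, Heath-Brown, Walsh, Castryck-Cluckers-Dittmann-Nguyen, Paredes-Sasyk);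
* `FiniteForEachLevel` (Faltings): for `n ≥ 7` the curve `X(n)` has genus at least `3`.
-/

set_option autoImplicit false

namespace Pool.Agent.Results.MP_4a0cc8_nt.SparseJInvariants

open Height

open scoped Classical in
/-- `E[n]` and `E₀[n]` are isomorphic as modules over the absolute Galois group of `K`. -/
def Congruent {K : Type} [Field K] (E E₀ : WeierstrassCurve K) (n : ℕ) : Prop :=
  ∃ f : (E.baseChange (AlgebraicClosure K)).toAffine.Point →
      (E₀.baseChange (AlgebraicClosure K)).toAffine.Point,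
    (∀ P Q, n • P = 0 → n • Q = 0 → f (P + Q) = f P + f Q) ∧
    Set.BijOn f {P | n • P = 0} {Q | n • Q = 0} ∧
    ∀ (σ : AlgebraicClosure K ≃ₐ[K] AlgebraicClosure K) P, n • P = 0 →
      f ((WeierstrassCurve.Affine.Point.map
          (σ : AlgebraicClosure K →ₐ[K] AlgebraicClosure K) :
            (E.baseChange (AlgebraicClosure K)).toAffine.Point →+
              (E.baseChange (AlgebraicClosure K)).toAffine.Point) P) =
        (WeierstrassCurve.Affine.Point.map
          (σ : AlgebraicClosure K →ₐ[K] AlgebraicClosure K) :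
            (E₀.baseChange (AlgebraicClosure K)).toAffine.Point →+
              (E₀.baseChange (AlgebraicClosure K)).toAffine.Point) (f P)

/-- `E` is isogenous to `E₀` over `K`: the function field of `E₀` embeds into that of `E`. -/
def IsIsogenous {K : Type} [Field K] (E E₀ : WeierstrassCurve K) : Prop :=
  Nonempty (FractionRing E₀.toAffine.CoordinateRing →ₐ[K] FractionRing E.toAffine.CoordinateRing)

/-- Some elliptic curve over `K` with `j`-invariant `j` is congruent modulo `n` but not isogenous
to `E₀`. -/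
def Exceptional {K : Type} [Field K] (E₀ : WeierstrassCurve K) (j : K) (n : ℕ) : Prop :=
  ∃ (E : WeierstrassCurve K) (_ : E.IsElliptic), E.j = j ∧ Congruent E E₀ n ∧ ¬ IsIsogenous E E₀

/-- **Theorem of Masser and Wüstholz**: if `j` is exceptional for the prime `p`, then `p` is at most
a power of the logarithm of the height of `j`. -/
def LogarithmicBound {K : Type} [Field K] [NumberField K] (E₀ : WeierstrassCurve K) : Prop :=
  ∃ c : ℕ, ∀ (j : K) (p : ℕ), p.Prime → Exceptional E₀ j p →
    (p : ℝ) ≤ c * (1 + Real.log (mulHeight₁ j)) ^ c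

/-- **Uniform point counts**: for a prime `p ≥ p₀(ε)` at most `C p ^ C T ^ ε` elements of height at
most `T` are exceptional for `p`. -/
def UniformCount {K : Type} [Field K] [NumberField K] (E₀ : WeierstrassCurve K) : Prop :=
  ∀ ε : ℝ, 0 < ε → ∃ p₀ C : ℕ, ∀ p : ℕ, p.Prime → p₀ ≤ p → ∀ T : ℝ, 1 ≤ T →
    ({j : K | mulHeight₁ j ≤ T ∧ Exceptional E₀ j p}.ncard : ℝ) ≤ C * (p : ℝ) ^ C * T ^ ε

/-- **Theorem of Faltings**: for each `n ≥ 7` finitely many `j` are exceptional for `n`. -/
def FiniteForEachLevel {K : Type} [Field K] [NumberField K] (E₀ : WeierstrassCurve K) : Prop :=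
  ∀ n : ℕ, 7 ≤ n → {j : K | Exceptional E₀ j n}.Finite

theorem congruent_of_dvd {K : Type} [Field K] {E E₀ : WeierstrassCurve K} {m n : ℕ} (hmn : m ∣ n)
    (h : Congruent E E₀ n) : Congruent E E₀ m := by
  classical
  obtain ⟨f, h1, h2, h3⟩ := h
  exact ⟨f, fun P Q hP hQ => h1 P Q (Pool.Agent.TH125.Tor.nsmul_of_dvd hmn hP)
    (Pool.Agent.TH125.Tor.nsmul_of_dvd hmn hQ), Pool.Agent.TH125.Tor.bijOn_of_dvd hmn f h1 h2,
    fun σ P hP => h3 σ P (Pool.Agent.TH125.Tor.nsmul_of_dvd hmn hP)⟩

/-- **Curves congruent modulo some `n ≥ 7` to a fixed curve are isogenous to it, outside a sparse set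
of `j`-invariants.** -/
theorem result {K : Type} [Field K] [NumberField K] (E₀ : WeierstrassCurve K) [E₀.IsElliptic]
    (h₁ : LogarithmicBound E₀) (h₂ : UniformCount E₀) (h₃ : FiniteForEachLevel E₀) :
    ∀ ε : ℝ, 0 < ε → ∃ C : ℝ, ∀ T : ℝ, 1 ≤ T →
      ({j : K | mulHeight₁ j ≤ T ∧ ∃ n : ℕ, 7 ≤ n ∧ Exceptional E₀ j n}.ncard : ℝ) ≤ C * T ^ ε := by
  refine Pool.Agent.TH125.Tor.union_bound_all (fun j : K => mulHeight₁ j) one_le_mulHeight₁
    (fun T => NumberField.finite_setOfPred_mulHeight₁_le K T) (fun j n => Exceptional E₀ j n)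
    ?_ h₁ h₂ h₃
  rintro j m n hmn ⟨E, hE, hj, hc, hi⟩
  exact ⟨E, hE, hj, congruent_of_dvd hmn hc, hi⟩

end Pool.Agent.Results.MP_4a0cc8_nt.SparseJInvariants
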